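import Mathlib

/-!
Decomposing the arcs of a digraph into a `k`-arc-connected flip and a `(τ-k)`-dijoin fails for
every `k ≥ 2` and every `τ > 2k`.

The example: `2k-2` sources, each joined to every vertex of a directed cycle of length `τ`.
-/

namespace Pool.Agent.Results.MP_3933ef_co.FlipDijoinFails

open Finset

/-- A finite directed multigraph with vertex set `V` and arc set `A` (parallel arcs are allowed):
`src a` is the tail and `tgt a` is the head of the arc `a`. -/
structure MDigraph (V A : Type) where
  /-- tail of an arc -/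
  src : A → V
  /-- head of an arc -/
  tgt : A → V

variable {V A : Type} [Fintype V] [Fintype A] [DecidableEq V] [DecidableEq A]

/-- `δ⁺(U)`: the arcs leaving `U`. -/
def outCut (D : MDigraph V A) (U : Finset V) : Finset A :=
  univ.filter fun a => D.src a ∈ U ∧ D.tgt a ∉ U

/-- `δ⁻(U)`: the arcs entering `U`. -/
def inCut (D : MDigraph V A) (U : Finset V) : Finset A :=
  univ.filter fun a => D.src a ∉ U ∧ D.tgt a ∈ U

/-- The digraph obtained by reversing every arc of `J`. -/
def flip (D : MDigraph V A) (J : Finset A) : MDigraph V A where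
  src a := if a ∈ J then D.tgt a else D.src a
  tgt a := if a ∈ J then D.src a else D.tgt a

/-- `D` is `k`-arc-connected: at least `k` arcs enter every nonempty proper vertex subset. -/
def ArcConnected (D : MDigraph V A) (k : ℕ) : Prop :=
  ∀ U : Finset V, U.Nonempty → U ≠ univ → k ≤ (inCut D U).card

/-- The underlying undirected multigraph of `D` is `m`-edge-connected. -/
def EdgeConnected (D : MDigraph V A) (m : ℕ) : Prop :=
  ∀ U : Finset V, U.Nonempty → U ≠ univ → m ≤ (outCut D U ∪ inCut D U).card

/-- Every dicut of `D` has at least `m` arcs. -/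
def DicutsAtLeast (D : MDigraph V A) (m : ℕ) : Prop :=
  ∀ U : Finset V, U.Nonempty → U ≠ univ → inCut D U = ∅ → m ≤ (outCut D U).card

/-- `J` is a `k`-arc-connected flip. -/
def IsFlip (D : MDigraph V A) (k : ℕ) (J : Finset A) : Prop :=
  ArcConnected (flip D J) k

/-- `J` is an `m`-dijoin: it has at least `m` arcs in every dicut. -/
def IsDijoin (D : MDigraph V A) (m : ℕ) (J : Finset A) : Prop :=
  ∀ U : Finset V, U.Nonempty → U ≠ univ → inCut D U = ∅ → m ≤ (J ∩ outCut D U).card

/-! ### The example -/

/-- `2k-2` sources joined to all vertices of a directed cycle of length `t`. -/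
def ex (s t : ℕ) : MDigraph (Fin s ⊕ ZMod t) ((Fin s × ZMod t) ⊕ ZMod t) where
  src a := match a with
    | Sum.inl p => Sum.inl p.1
    | Sum.inr c => Sum.inr c
  tgt a := match a with
    | Sum.inl p => Sum.inr p.2
    | Sum.inr c => Sum.inr (c + 1)

section
variable {s t : ℕ} [NeZero t]

@[simp] lemma src_inl (p : Fin s × ZMod t) : (ex s t).src (Sum.inl p) = Sum.inl p.1 := rfl
@[simp] lemma src_inr (c : ZMod t) : (ex s t).src (Sum.inr c) = Sum.inr c := rfl
@[simp] lemma tgt_inl (p : Fin s × ZMod t) : (ex s t).tgt (Sum.inl p) = Sum.inr p.2 := rfl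
@[simp] lemma tgt_inr (c : ZMod t) : (ex s t).tgt (Sum.inr c) = Sum.inr (c + 1) := rfl

lemma mem_out {D : MDigraph V A} {U : Finset V} {a : A} :
    a ∈ outCut D U ↔ D.src a ∈ U ∧ D.tgt a ∉ U := by simp [outCut]

lemma mem_in {D : MDigraph V A} {U : Finset V} {a : A} :
    a ∈ inCut D U ↔ D.src a ∉ U ∧ D.tgt a ∈ U := by simp [inCut]

/-- a set closed under adding one is everything -/
lemma closed_all {P : ZMod t → Prop} (h : ∀ c, P c → P (c + 1)) {c0 : ZMod t} (h0 : P c0)
    (c : ZMod t) : P c := by
  have h1 : ∀ n : ℕ, P (c0 + (n : ZMod t)) := by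
    intro n
    induction n with
    | zero => simpa using h0
    | succ n ih =>
      have := h _ ih
      rw [Nat.cast_succ, ← add_assoc]; exact this
  have h2 := h1 (c - c0).val
  rw [ZMod.natCast_zmod_val] at h2
  simpa using h2

lemma exists_leave {P : ZMod t → Prop} {c0 c1 : ZMod t} (h0 : P c0) (h1 : ¬ P c1) :
    ∃ c, P c ∧ ¬ P (c + 1) := by
  by_contra hne
  push Not at hne
  exact h1 (closed_all hne h0 c1)

lemma star_card (i : Fin s) :
    (univ.image fun c : ZMod t => (Sum.inl (i, c) : (Fin s × ZMod t) ⊕ ZMod t)).card = t := by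
  rw [card_image_of_injective]
  · rw [card_univ, ZMod.card]
  · intro a b h
    simpa using h

/-- The underlying graph is `(s+2)`-edge-connected. -/
lemma ex_edge (hst : s + 2 ≤ t) : EdgeConnected (ex s t) (s + 2) := by
  intro U hne hU
  by_cases h0 : ∃ c0, (Sum.inr c0 : Fin s ⊕ ZMod t) ∈ U
  · by_cases h1 : ∃ c1, (Sum.inr c1 : Fin s ⊕ ZMod t) ∉ U
    · obtain ⟨c0, h0⟩ := h0
      obtain ⟨c1, h1⟩ := h1
      obtain ⟨j, hj, hj'⟩ := exists_leave (P := fun c => (Sum.inr c : Fin s ⊕ ZMod t) ∈ U) h0 h1
      obtain ⟨l, hl, hl'⟩ := exists_leave (P := fun c => (Sum.inr c : Fin s ⊕ ZMod t) ∉ U) h1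
        (by simpa using h0)
      simp only [not_not] at hl'
      classical
      let f : Fin s → (Fin s × ZMod t) ⊕ ZMod t := fun i =>
        if (Sum.inl i : Fin s ⊕ ZMod t) ∈ U then Sum.inl (i, c1) else Sum.inl (i, c0)
      have hf : Function.Injective f := by
        intro a b hab
        by_cases ha : (Sum.inl a : Fin s ⊕ ZMod t) ∈ U <;>
          by_cases hb : (Sum.inl b : Fin s ⊕ ZMod t) ∈ U <;> simp [f, ha, hb] at hab <;> tauto
      have hfr : ∀ i c, f i ≠ Sum.inr c := by
        intro i c
        by_cases ha : (Sum.inl i : Fin s ⊕ ZMod t) ∈ U <;> simp [f, ha]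
      have hjl : j ≠ l := by
        rintro rfl
        exact hl hj
      have hsub : univ.image f ∪ {Sum.inr j, Sum.inr l} ⊆
          outCut (ex s t) U ∪ inCut (ex s t) U := by
        intro a ha
        rw [mem_union, mem_insert, mem_singleton, mem_image] at ha
        rcases ha with ⟨i, -, rfl⟩ | rfl | rfl
        · by_cases hi : (Sum.inl i : Fin s ⊕ ZMod t) ∈ U
          · rw [mem_union]; left
            have hfi : f i = Sum.inl (i, c1) := by simp [f, hi]
            rw [hfi, mem_out]
            exact ⟨hi, h1⟩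
          · rw [mem_union]; right
            have hfi : f i = Sum.inl (i, c0) := by simp [f, hi]
            rw [hfi, mem_in]
            exact ⟨hi, h0⟩
        · rw [mem_union]; left
          simp only [mem_out, src_inr, tgt_inr]
          exact ⟨hj, hj'⟩
        · rw [mem_union]; right
          simp only [mem_in, src_inr, tgt_inr]
          exact ⟨hl, hl'⟩
      refine le_trans ?_ (card_le_card hsub)
      rw [card_union_of_disjoint, card_image_of_injective _ hf, card_univ, Fintype.card_fin,
        card_pair]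
      · simpa using hjl
      · rw [disjoint_left]
        intro a ha hb
        rw [mem_image] at ha
        obtain ⟨i, -, rfl⟩ := ha
        rw [mem_insert, mem_singleton] at hb
        rcases hb with hb | hb
        · exact hfr _ _ hb
        · exact hfr _ _ hb
    · push Not at h1
      have : ∃ i, (Sum.inl i : Fin s ⊕ ZMod t) ∉ U := by
        by_contra hcon
        push Not at hcon
        apply hU
        ext x
        rcases x with i | c
        · simp [hcon]
        · simp [h1]
      obtain ⟨i, hi⟩ := this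
      refine le_trans hst ?_
      refine le_trans (le_of_eq (star_card (s := s) (t := t) i).symm) ?_
      apply card_le_card
      intro a ha
      rw [mem_image] at ha
      obtain ⟨c, -, rfl⟩ := ha
      rw [mem_union]; right
      simp only [mem_in, src_inl, tgt_inl]
      exact ⟨hi, h1 c⟩
  · push Not at h0
    obtain ⟨x, hx⟩ := hne
    rcases x with i | c
    · refine le_trans hst ?_
      refine le_trans (le_of_eq (star_card (s := s) (t := t) i).symm) ?_
      apply card_le_card
      intro a ha
      rw [mem_image] at ha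
      obtain ⟨c, -, rfl⟩ := ha
      rw [mem_union]; left
      simp only [mem_out, src_inl, tgt_inl]
      exact ⟨hx, h0 c⟩
    · exact absurd hx (h0 c)

/-- Every dicut of the example has at least `t` arcs. -/
lemma ex_dicut : DicutsAtLeast (ex s t) t := by
  intro U hne hU hin
  have hno : ∀ a, ¬ ((ex s t).src a ∉ U ∧ (ex s t).tgt a ∈ U) := by
    intro a ha
    have : a ∈ inCut (ex s t) U := mem_in.2 ha
    rw [hin] at this
    simp at this
  have h0 : ∀ c, (Sum.inr c : Fin s ⊕ ZMod t) ∉ U := by
    intro c0 hc0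
    have hall : ∀ c, (Sum.inr c : Fin s ⊕ ZMod t) ∈ U := by
      by_contra hcon
      push Not at hcon
      obtain ⟨c1, hc1⟩ := hcon
      obtain ⟨l, hl, hl'⟩ := exists_leave (P := fun c => (Sum.inr c : Fin s ⊕ ZMod t) ∉ U) hc1
        (by simpa using hc0)
      simp only [not_not] at hl'
      exact hno (Sum.inr l) ⟨hl, hl'⟩
    apply hU
    ext x
    rcases x with i | c
    · simp only [mem_univ, iff_true]
      by_contra hi
      exact hno (Sum.inl (i, c0)) ⟨hi, hc0⟩
    · simp [hall]
  obtain ⟨x, hx⟩ := hne
  rcases x with i | c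
  · calc t = (univ.image fun c : ZMod t =>
        (Sum.inl (i, c) : (Fin s × ZMod t) ⊕ ZMod t)).card := (star_card (s := s) (t := t) i).symm
      _ ≤ _ := by
        apply card_le_card
        intro a ha
        rw [mem_image] at ha
        obtain ⟨c, -, rfl⟩ := ha
        simp only [mem_out, src_inl, tgt_inl]
        exact ⟨hx, h0 c⟩
  · exact absurd hx (h0 c)

end

/-- **Main theorem.** For all `k ≥ 2` and `τ > 2k` there is a finite digraph whose underlying
undirected multigraph is `2k`-edge-connected, all of whose dicuts have at least `τ` arcs, and whose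
arc set does not decompose into a `k`-arc-connected flip and a `(τ-k)`-dijoin. -/
theorem result (k τ : ℕ) (hk : 2 ≤ k) (hτ : 2 * k < τ) :
    ∃ (V A : Type) (_ : Fintype V) (_ : Fintype A) (_ : DecidableEq V) (_ : DecidableEq A)
      (D : MDigraph V A), (∀ a, D.src a ≠ D.tgt a) ∧
      EdgeConnected D (2 * k) ∧ DicutsAtLeast D τ ∧
      ¬ ∃ J J' : Finset A, J ∪ J' = univ ∧ Disjoint J J' ∧
        IsFlip D k J ∧ IsDijoin D (τ - k) J' := by
  obtain ⟨m, rfl⟩ : ∃ m, k = m + 2 := ⟨k - 2, by omega⟩
  haveI : NeZero τ := ⟨by omega⟩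
  haveI : Fact (1 < τ) := ⟨by omega⟩
  refine ⟨Fin (2 * m + 2) ⊕ ZMod τ, (Fin (2 * m + 2) × ZMod τ) ⊕ ZMod τ, inferInstance,
    inferInstance, inferInstance, inferInstance, ex (2 * m + 2) τ, ?_, ?_, ex_dicut, ?_⟩
  · rintro (p | c)
    · simp
    · simp only [src_inr, tgt_inr, ne_eq, Sum.inr.injEq]
      intro h
      have : (1 : ZMod τ) = 0 := by
        have h2 : c + 0 = c + 1 := by simpa using h
        exact (add_left_cancel h2).symm
      exact one_ne_zero this
  · have := ex_edge (s := 2 * m + 2) (t := τ) (by omega)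
    have h2 : 2 * (m + 2) = 2 * m + 2 + 2 := by ring
    rw [h2]; exact this
  · rintro ⟨J, J', hJJ, hdis, hflip, hdij⟩
    -- each source has at most k arcs of J
    have hsrc : ∀ i : Fin (2 * m + 2),
        (univ.filter fun c : ZMod τ => (Sum.inl (i, c) : (Fin (2 * m + 2) × ZMod τ) ⊕ ZMod τ)
          ∈ J).card ≤ m + 2 := by
      intro i
      have hne : ({Sum.inl i} : Finset (Fin (2 * m + 2) ⊕ ZMod τ)) ≠ univ := by
        intro h
        have : (Sum.inr 0 : Fin (2 * m + 2) ⊕ ZMod τ) ∈
            ({Sum.inl i} : Finset (Fin (2 * m + 2) ⊕ ZMod τ)) := by rw [h]; simp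
        simp at this
      have hin : inCut (ex (2 * m + 2) τ) {Sum.inl i} = ∅ := by
        ext a
        rw [mem_in]
        rcases a with p | c <;> simp
      have h1 := hdij {Sum.inl i} (singleton_nonempty _) hne hin
      have h2 : (J' ∩ outCut (ex (2 * m + 2) τ) {Sum.inl i}).card ≤
          (univ.filter fun c : ZMod τ =>
            ¬ (Sum.inl (i, c) : (Fin (2 * m + 2) × ZMod τ) ⊕ ZMod τ) ∈ J).card := by
        have hinj : Function.Injective fun c : ZMod τ =>
            (Sum.inl (i, c) : (Fin (2 * m + 2) × ZMod τ) ⊕ ZMod τ) := by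
          intro a b h
          simpa using h
        rw [← card_image_of_injective _ hinj]
        apply card_le_card
        intro a ha
        rw [mem_inter, mem_out] at ha
        obtain ⟨haJ, has, hat⟩ := ha
        rcases a with ⟨i', c⟩ | c
        · simp only [src_inl, mem_singleton, Sum.inl.injEq] at has
          subst has
          rw [mem_image]
          refine ⟨c, ?_, rfl⟩
          rw [mem_filter]
          refine ⟨mem_univ _, fun hJ => ?_⟩
          exact disjoint_left.1 hdis hJ haJ
        · simp at has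
      have h3 : (univ.filter fun c : ZMod τ =>
            (Sum.inl (i, c) : (Fin (2 * m + 2) × ZMod τ) ⊕ ZMod τ) ∈ J).card +
          (univ.filter fun c : ZMod τ =>
            ¬ (Sum.inl (i, c) : (Fin (2 * m + 2) × ZMod τ) ⊕ ZMod τ) ∈ J).card = τ := by
        rw [card_filter_add_card_filter_not, card_univ, ZMod.card]
      omega
    -- each cycle vertex needs out-degree at least k after the flip
    have hcyc : ∀ c : ZMod τ, m + 2 ≤
        (univ.filter fun i : Fin (2 * m + 2) =>
          (Sum.inl (i, c) : (Fin (2 * m + 2) × ZMod τ) ⊕ ZMod τ) ∈ J).card +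
        (if (Sum.inr (c - 1) : (Fin (2 * m + 2) × ZMod τ) ⊕ ZMod τ) ∈ J then 1 else 0) +
        (if (Sum.inr c : (Fin (2 * m + 2) × ZMod τ) ⊕ ZMod τ) ∈ J then 0 else 1) := by
      intro c
      have hne : (univ.erase (Sum.inr c) : Finset (Fin (2 * m + 2) ⊕ ZMod τ)).Nonempty := by
        refine ⟨Sum.inl ⟨0, by omega⟩, ?_⟩
        simp
      have hnu : (univ.erase (Sum.inr c) : Finset (Fin (2 * m + 2) ⊕ ZMod τ)) ≠ univ := by
        intro h
        have : (Sum.inr c : Fin (2 * m + 2) ⊕ ZMod τ) ∈
            (univ.erase (Sum.inr c) : Finset (Fin (2 * m + 2) ⊕ ZMod τ)) := by rw [h]; simp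
        simp at this
      have h1 := hflip _ hne hnu
      refine le_trans h1 ?_
      have hsub : inCut (flip (ex (2 * m + 2) τ) J) (univ.erase (Sum.inr c)) ⊆
          ((univ.filter fun i : Fin (2 * m + 2) =>
            (Sum.inl (i, c) : (Fin (2 * m + 2) × ZMod τ) ⊕ ZMod τ) ∈ J).image
              fun i => (Sum.inl (i, c) : (Fin (2 * m + 2) × ZMod τ) ⊕ ZMod τ)) ∪
          (if (Sum.inr (c - 1) : (Fin (2 * m + 2) × ZMod τ) ⊕ ZMod τ) ∈ J then
            {Sum.inr (c - 1)} else ∅) ∪
          (if (Sum.inr c : (Fin (2 * m + 2) × ZMod τ) ⊕ ZMod τ) ∈ J then ∅ else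
            {Sum.inr c}) := by
        intro a ha
        rw [mem_in] at ha
        obtain ⟨has, hat⟩ := ha
        simp only [mem_erase, mem_univ, and_true, ne_eq, not_not] at has hat
        rcases a with ⟨i, c'⟩ | c'
        · by_cases hJ : (Sum.inl (i, c') : (Fin (2 * m + 2) × ZMod τ) ⊕ ZMod τ) ∈ J
          · simp only [flip, hJ, if_true, tgt_inl, Sum.inr.injEq] at has
            subst has
            simp [hJ]
          · simp [flip, hJ] at has
        · by_cases hJ : (Sum.inr c' : (Fin (2 * m + 2) × ZMod τ) ⊕ ZMod τ) ∈ J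
          · simp only [flip, hJ, if_true, tgt_inr, Sum.inr.injEq] at has
            have hc' : c' = c - 1 := by rw [← has]; ring
            subst hc'
            rw [mem_union, mem_union]
            left; right
            rw [if_pos hJ]
            simp
          · simp only [flip, hJ, if_false, src_inr, Sum.inr.injEq] at has
            subst has
            rw [mem_union]
            right
            rw [if_neg hJ]
            simp
      refine le_trans (card_le_card hsub) ?_
      refine le_trans (card_union_le _ _) ?_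
      refine add_le_add (le_trans (card_union_le _ _) (add_le_add card_image_le ?_)) ?_
      · split_ifs <;> simp
      · split_ifs <;> simp
    -- sum over the cycle
    have hsum := Finset.sum_le_sum (fun c (_ : c ∈ (univ : Finset (ZMod τ))) => hcyc c)
    rw [sum_const, card_univ, ZMod.card, sum_add_distrib, sum_add_distrib] at hsum
    have hshift : ∑ c : ZMod τ,
        (if (Sum.inr (c - 1) : (Fin (2 * m + 2) × ZMod τ) ⊕ ZMod τ) ∈ J then 1 else 0) =
        ∑ c : ZMod τ,
        (if (Sum.inr c : (Fin (2 * m + 2) × ZMod τ) ⊕ ZMod τ) ∈ J then 1 else 0) := by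
      exact (Equiv.subRight (1 : ZMod τ)).sum_comp fun c =>
        (if (Sum.inr c : (Fin (2 * m + 2) × ZMod τ) ⊕ ZMod τ) ∈ J then 1 else 0)
    have hone : ∑ c : ZMod τ,
        (if (Sum.inr c : (Fin (2 * m + 2) × ZMod τ) ⊕ ZMod τ) ∈ J then 1 else 0) +
        ∑ c : ZMod τ,
        (if (Sum.inr c : (Fin (2 * m + 2) × ZMod τ) ⊕ ZMod τ) ∈ J then 0 else 1) = τ := by
      rw [← sum_add_distrib]
      calc _ = ∑ c : ZMod τ, 1 := by
            apply sum_congr rfl
            intro c _
            split_ifs <;> rfl
        _ = τ := by simp [ZMod.card]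
    have hdouble : ∑ c : ZMod τ, (univ.filter fun i : Fin (2 * m + 2) =>
          (Sum.inl (i, c) : (Fin (2 * m + 2) × ZMod τ) ⊕ ZMod τ) ∈ J).card =
        ∑ i : Fin (2 * m + 2), (univ.filter fun c : ZMod τ =>
          (Sum.inl (i, c) : (Fin (2 * m + 2) × ZMod τ) ⊕ ZMod τ) ∈ J).card := by
      simp only [card_filter]
      exact sum_comm
    have hbound : ∑ i : Fin (2 * m + 2), (univ.filter fun c : ZMod τ =>
          (Sum.inl (i, c) : (Fin (2 * m + 2) × ZMod τ) ⊕ ZMod τ) ∈ J).card ≤
        (2 * m + 2) * (m + 2) := by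
      refine le_trans (sum_le_sum fun i _ => hsrc i) ?_
      simp
    rw [smul_eq_mul, hshift] at hsum
    rw [hdouble] at hsum
    have hfin : τ * (m + 2) ≤ (2 * m + 2) * (m + 2) + τ := by omega
    nlinarith
end Pool.Agent.Results.MP_3933ef_co.FlipDijoinFails
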